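import Pool.Agent.TH456.PW.Int2

/-!
# Approximate relations between a constant, `log x` and several powers of `x` for almost all integers `x`
-/

set_option autoImplicit false

open Filter Topology Asymptotics Set Polynomial

namespace Pool.Agent.TH456.PW

open Pool.Agent.TH818.AP Pool.Agent.TH818.AR

/-- the functions `t^(φ i) (log t)^l` -/
noncomputable def gM {ι : Type} (φ : ι → ℝ) (d1 : ℕ) (x : ι × Fin (d1 + 1)) (t : ℝ) : ℝ :=
  Real.exp (φ x.1 * Real.log t) * Real.log t ^ (x.2 : ℕ)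

theorem gM_an {ι : Type} (φ : ι → ℝ) (d1 : ℕ) (x : ι × Fin (d1 + 1)) : AnalyticOnNhd ℝ (gM φ d1 x) (Ioi 0) := by
  intro t ht
  have h1 : AnalyticAt ℝ Real.log t := analyticAt_log ht
  exact ((analyticAt_const.mul h1).rexp).mul (h1.pow _)

theorem gM_indep {ι : Type} [Fintype ι] (φ : ι → ℝ)
    (hφ : ∀ (i i' : ι) (j j' : ℕ), φ i + j = φ i' + j' → i = i') (d1 : ℕ) (a b : ℝ) (ha : 0 < a) (hab : a < b) :
    RIndep (gM φ d1) a b := by
  refine rindep (gM φ d1) a b ha hab (gM_an φ d1)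
    (![Real.log, fun t => Real.log (Real.log t)] : Fin 2 → ℝ → ℝ) ?_ ?_ 0 rfl
    (fun x => ![φ x.1, (x.2 : ℕ)]) ?_ ?_
  · intro i
    fin_cases i
    · exact Real.tendsto_log_atTop
    · exact loglog_top
  · intro i j hij
    fin_cases i <;> fin_cases j
    · exact absurd hij (lt_irrefl _)
    · exact loglog_o
    · exact absurd hij (by decide)
    · exact absurd hij (lt_irrefl _)
  · intro x
    filter_upwards [eventually_gt_atTop 1] with t ht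
    have h1 : 0 < Real.log t := Real.log_pos ht
    simp only [gM, Fin.sum_univ_two, Matrix.cons_val_zero, Matrix.cons_val_one]
    rw [Real.exp_add]
    congr 1
    rw [← Real.log_pow, Real.exp_log (pow_pos h1 _)]
  · rintro ⟨i, l⟩ ⟨i', l'⟩ j j' h1 h2
    have h3 := h1 1 (by decide)
    simp only [Matrix.cons_val_one, Matrix.cons_val_zero, Nat.cast_inj] at h2 h3
    have hl : l = l' := Fin.ext (by simpa using h3)
    exact Prod.ext (hφ i i' j j' h2) hl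

/-- the matrix of the functions at `N t` in terms of the functions at `t`, `L = log N` -/
noncomputable def tauM {ι : Type} [DecidableEq ι] (φ : ι → ℝ) (d1 : ℕ) (L : ℝ) (x y : ι × Fin (d1 + 1)) : ℝ :=
  if x.1 = y.1 then Real.exp (φ x.1 * L) * tauL d1 L x.2 y.2 else 0

theorem tri_tauM {ι : Type} [Fintype ι] [DecidableEq ι] {φ : ι → ℝ} {L : ℝ} (hφ : ∀ i, 0 ≤ φ i) (hL : 0 ≤ L) (d1 : ℕ) :
    Tri (fun x : ι × Fin (d1 + 1) => (x.2 : ℕ)) (tauM φ d1 L) := by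
  constructor
  · intro x
    have h1 : tauL d1 L x.2 x.2 = 1 := by simp [tauL]
    have h2 : 1 ≤ Real.exp (φ x.1 * L) := Real.one_le_exp (mul_nonneg (hφ _) hL)
    simp only [tauM, if_true, h1, mul_one]
    exact h2.trans (le_abs_self _)
  · intro x y hne hle
    simp only [tauM]
    split_ifs with h
    · have h3 : x.2 ≠ y.2 := fun hh => hne (Prod.ext h hh)
      have hlt : (x.2 : ℕ) < y.2 := lt_of_le_of_ne hle (fun hh => h3 (Fin.ext hh))
      simp [tauL, Nat.choose_eq_zero_of_lt hlt]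
    · rfl

theorem sum_tauM {ι : Type} [Fintype ι] [DecidableEq ι] (φ : ι → ℝ) (d1 : ℕ) (L t : ℝ) (x : ι × Fin (d1 + 1)) :
    ∑ y, tauM φ d1 L x y * gM φ d1 y t =
      Real.exp (φ x.1 * (L + Real.log t)) * (L + Real.log t) ^ (x.2 : ℕ) := by
  rw [Fintype.sum_prod_type, Finset.sum_eq_single x.1]
  · simp only [tauM, gM, if_true]
    rw [← sum_tauL, Finset.mul_sum]
    refine Finset.sum_congr rfl fun l _ => ?_
    rw [mul_add, Real.exp_add]
    ring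
  · intro i _ hi
    refine Finset.sum_eq_zero fun l _ => ?_
    simp only [tauM]
    rw [if_neg (fun h => hi h.symm), zero_mul]
  · simp

/-- the exceptional integers in `[N, 2N]` -/
def ExcM {ι : Type} [Fintype ι] (γ : ℝ) (φ : ι → ℝ) (d0 d1 N : ℕ) (A B : ℝ) : Set ℕ :=
  {x | N ≤ x ∧ x ≤ 2 * N ∧ ∃ c : Fin (d0 + 1) × Fin (d1 + 1) × ι → ℤ, c ≠ 0 ∧
    (∀ e, |(c e : ℝ)| ≤ (N : ℝ) ^ A) ∧
    |∑ e, (c e : ℝ) * (γ ^ (e.1 : ℕ) * Real.log x ^ (e.2.1 : ℕ) * (x : ℝ) ^ (φ e.2.2))| ≤ (N : ℝ) ^ (-B)}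

theorem ExcM_fin {ι : Type} [Fintype ι] (γ : ℝ) (φ : ι → ℝ) (d0 d1 N : ℕ) (A B : ℝ) :
    (ExcM γ φ d0 d1 N A B).Finite :=
  (Set.finite_Icc N (2 * N)).subset fun _ hx => ⟨hx.1, hx.2.1⟩

/-- the reindexing -/
def eqM (ι : Type) (d0 d1 : ℕ) : Fin (d0 + 1) × Fin (d1 + 1) × ι ≃ (ι × Fin (d1 + 1)) × Fin (d0 + 1) where
  toFun e := ((e.2.2, e.2.1), e.1)
  invFun y := (y.2, y.1.2, y.1.1)
  left_inv _ := rfl
  right_inv _ := rfl

theorem almost_allM {ι : Type} [Fintype ι] (γ : ℝ) (φ : ι → ℝ)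
    (hγ : ∀ d, GoodConst (fun e : Fin (d + 1) => γ ^ (e : ℕ))) (hφ0 : ∀ i, 0 ≤ φ i)
    (hφ : ∀ (i i' : ι) (j j' : ℕ), φ i + j = φ i' + j' → i = i') (d0 d1 : ℕ) (A β : ℝ) (hA : 0 ≤ A)
    (hβ : (((d0 + 1) * (d1 + 1) * Fintype.card ι : ℕ) : ℝ) /
      ((((d0 + 1) * (d1 + 1) * Fintype.card ι : ℕ) : ℝ) + 1) < β) :
    ∃ B C T0 : ℝ, 0 < C ∧ 1 ≤ T0 ∧ ∀ N : ℕ, T0 ≤ (N : ℝ) →
      ((ExcM γ φ d0 d1 N A B).ncard : ℝ) ≤ C * (N : ℝ) ^ β := by
  classical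
  have hcard : Fintype.card (ι × Fin (d1 + 1)) * Fintype.card (Fin (d0 + 1)) =
      (d0 + 1) * (d1 + 1) * Fintype.card ι := by
    simp only [Fintype.card_prod, Fintype.card_fin]
    ring
  obtain ⟨κ, C1, hC1, hU⟩ := uniformZ bd tlow Pool.Agent.TH818.AR.taylor det2 aux2 (h := Fin (d0 + 1))
    (gM φ d1) 1 2 (by norm_num)
    (fun l t ht => gM_an φ d1 l t (lt_of_lt_of_le one_pos ht.1)) (gM_indep φ hφ d1 1 2 one_pos (by norm_num))
    (fun x : ι × Fin (d1 + 1) => (x.2 : ℕ)) A β hA _ hcard hβ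
  obtain ⟨B1, T1, hs⟩ := hγ d0 κ
  obtain ⟨B, T2, hT2, hU'⟩ := hU B1
  refine ⟨B, C1, max T1 T2, hC1, le_max_of_le_right hT2, ?_⟩
  intro N hT
  have hTT1 : T1 ≤ (N : ℝ) := (le_max_left _ _).trans hT
  have hTT2 : T2 ≤ (N : ℝ) := (le_max_right _ _).trans hT
  have hTge : (1 : ℝ) ≤ N := hT2.trans hTT2
  have hTp : (0 : ℝ) < N := by linarith
  obtain ⟨hfin, hle⟩ := hU' N N rfl hTT2 (tauM φ d1 (Real.log N))
    (tri_tauM hφ0 (Real.log_nonneg hTge) d1) _ (hs N hTT1)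
  refine le_trans ?_ hle
  have hkey : ∀ x ∈ ExcM γ φ d0 d1 N A B, ((x : ℚ) / N) ∈
      ExcCZ (gM φ d1) 1 2 A B N N (tauM φ d1 (Real.log N)) (fun e : Fin (d0 + 1) => γ ^ (e : ℕ)) := by
    rintro x ⟨hx1, hx2, c, hc0, hc, hcs⟩
    have hx0 : (N : ℝ) ≤ x := by exact_mod_cast hx1
    have hx0' : (x : ℝ) ≤ 2 * N := by exact_mod_cast hx2
    have hxp : (0 : ℝ) < x := by linarith
    refine ⟨⟨?_, ?_⟩, ⟨x, by push_cast; rfl⟩, fun l => c ((eqM ι d0 d1).symm l), ?_, fun l => hc _, ?_⟩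
    · push_cast
      rw [le_div_iff₀ hTp]
      linarith
    · push_cast
      rw [div_le_iff₀ hTp]
      linarith
    · intro hcon
      apply hc0
      funext e
      have := congrFun hcon (eqM ι d0 d1 e)
      simpa using this
    · rw [← Equiv.sum_comp (eqM ι d0 d1)]
      refine le_trans (le_of_eq ?_) hcs
      congr 1
      refine Finset.sum_congr rfl fun e _ => ?_
      rw [sum_tauM]
      have hlog : Real.log N + Real.log (((x : ℚ) / N : ℚ) : ℝ) = Real.log x := by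
        push_cast
        rw [Real.log_div (by linarith) hTp.ne']
        ring
      rw [hlog]
      simp only [Equiv.symm_apply_apply]
      simp only [eqM, Equiv.coe_fn_mk]
      rw [Real.rpow_def_of_pos hxp, mul_comm (Real.log (x : ℝ)) (φ e.2.2)]
      ring
  have hinj : Set.InjOn (fun x : ℕ => (x : ℚ) / N) (ExcM γ φ d0 d1 N A B) := by
    intro x _ y _ hxy
    have hN : (N : ℚ) ≠ 0 := by exact_mod_cast hTp.ne'
    have := (div_left_inj' hN).1 hxy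
    exact_mod_cast this
  have h6 := Set.ncard_le_ncard (s := (fun x : ℕ => (x : ℚ) / N) '' ExcM γ φ d0 d1 N A B)
    (by
      rintro _ ⟨x, hx, rfl⟩
      exact hkey x hx) hfin
  rw [hinj.ncard_image] at h6
  exact_mod_cast h6

/-- the same for all `N ≥ 1` and all larger `B` -/
theorem excM_bound {ι : Type} [Fintype ι] (γ : ℝ) (φ : ι → ℝ)
    (hγ : ∀ d, GoodConst (fun e : Fin (d + 1) => γ ^ (e : ℕ))) (hφ0 : ∀ i, 0 ≤ φ i)
    (hφ : ∀ (i i' : ι) (j j' : ℕ), φ i + j = φ i' + j' → i = i') (d0 d1 : ℕ) (A β : ℝ) (hA : 0 ≤ A)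
    (hβ : 1 - 1 / (((d0 : ℝ) + 1) * (d1 + 1) * Fintype.card ι + 1) < β) :
    ∃ B0 C : ℝ, 0 ≤ C ∧ ∀ B : ℝ, B0 ≤ B → ∀ N : ℕ, 1 ≤ N →
      ((ExcM γ φ d0 d1 N A B).ncard : ℝ) ≤ C * (N : ℝ) ^ β := by
  have hβ0 : 0 ≤ β := by
    refine le_trans ?_ hβ.le
    rw [sub_nonneg, div_le_one (by positivity)]
    have : (0 : ℝ) ≤ ((d0 : ℝ) + 1) * (d1 + 1) * Fintype.card ι := by positivity
    linarith
  obtain ⟨B, C, T0, hC, hT0, h⟩ := almost_allM γ φ hγ hφ0 hφ d0 d1 A β hA (by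
    refine lt_of_le_of_lt (le_of_eq ?_) hβ
    push_cast
    have : (0 : ℝ) ≤ ((d0 : ℝ) + 1) * (d1 + 1) * Fintype.card ι := by positivity
    field_simp
    ring)
  refine ⟨B, C + (T0 + 1), by positivity, fun B' hB' N hN => ?_⟩
  have hN1 : (1 : ℝ) ≤ N := by exact_mod_cast hN
  have hNβ : 1 ≤ (N : ℝ) ^ β := Real.one_le_rpow hN1 hβ0
  rcases le_or_gt T0 (N : ℝ) with hT | hT
  · have h1 : ExcM γ φ d0 d1 N A B' ⊆ ExcM γ φ d0 d1 N A B := by
      rintro x ⟨h1, h2, c, hc0, hc, hs⟩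
      exact ⟨h1, h2, c, hc0, hc, hs.trans (Real.rpow_le_rpow_of_exponent_le hN1 (by linarith))⟩
    have h2 := Set.ncard_le_ncard h1 (ExcM_fin _ _ _ _ _ _ _)
    calc ((ExcM γ φ d0 d1 N A B').ncard : ℝ) ≤ ((ExcM γ φ d0 d1 N A B).ncard : ℝ) := by exact_mod_cast h2
      _ ≤ C * (N : ℝ) ^ β := h N hT
      _ ≤ (C + (T0 + 1)) * (N : ℝ) ^ β := by
        refine mul_le_mul_of_nonneg_right ?_ (by linarith)
        linarith
  · have h1 : ExcM γ φ d0 d1 N A B' ⊆ Set.Icc N (2 * N) := fun x hx => ⟨hx.1, hx.2.1⟩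
    have h2 := Set.ncard_le_ncard h1 (Set.finite_Icc _ _)
    have h3 : (Set.Icc N (2 * N)).ncard = N + 1 := by
      rw [← Finset.coe_Icc, Set.ncard_coe_finset, Nat.card_Icc]
      omega
    rw [h3] at h2
    calc ((ExcM γ φ d0 d1 N A B').ncard : ℝ) ≤ ((N + 1 : ℕ) : ℝ) := by exact_mod_cast h2
      _ ≤ T0 + 1 := by push_cast; linarith
      _ ≤ (C + (T0 + 1)) * 1 := by linarith
      _ ≤ (C + (T0 + 1)) * (N : ℝ) ^ β := by
        refine mul_le_mul_of_nonneg_left hNβ ?_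
        linarith

end Pool.Agent.TH456.PW
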