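import Mathlib

/-!
# Small integer combinations of `π` and `e` are not integers
-/

set_option autoImplicit false

namespace Pool.Agent.TH456.PW

theorem table : ∀ a < 201, ∀ b < 201, a = 100 ∧ b = 100 ∨
    800 < (a * 31415926535 + b * 27182818283 + 400 + (5860000000000 - 100 * (31415926535 + 27182818283))) %
      10000000000 := by
  decide +kernel

/-- no combination `i π + j e` with integers `|i|, |j| ≤ 100`, not both zero, is an integer -/
theorem pi_e (i j k : ℤ) (hi : |i| ≤ 100) (hj : |j| ≤ 100) (h : i * Real.pi + j * Real.exp 1 = k) : i = 0 ∧ j = 0 := by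
  have hp1 : 3.1415926535 < Real.pi := by
    have := Real.pi_gt_d20
    norm_num at this ⊢
    linarith
  have hp2 : Real.pi < 3.1415926536 := by
    have := Real.pi_lt_d20
    norm_num at this ⊢
    linarith
  have he1 : 2.7182818283 < Real.exp 1 := Real.exp_one_gt_d9
  have he2 : Real.exp 1 < 2.7182818286 := Real.exp_one_lt_d9
  rw [abs_le] at hi hj
  obtain ⟨a, ha⟩ : ∃ a : ℕ, (a : ℤ) = i + 100 := ⟨(i + 100).toNat, by omega⟩
  obtain ⟨b, hb⟩ : ∃ b : ℕ, (b : ℤ) = j + 100 := ⟨(j + 100).toNat, by omega⟩
  -- the integer `i P + j E - 10^10 k` is small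
  have hiR : |(i : ℝ)| ≤ 100 := by
    rw [abs_le]
    constructor
    · exact_mod_cast hi.1
    · exact_mod_cast hi.2
  have hjR : |(j : ℝ)| ≤ 100 := by
    rw [abs_le]
    constructor
    · exact_mod_cast hj.1
    · exact_mod_cast hj.2
  have h1 : |(i : ℝ) * (Real.pi * 10000000000 - 31415926535)| ≤ 100 * 1 := by
    rw [abs_mul]
    refine mul_le_mul hiR ?_ (abs_nonneg _) (by norm_num)
    rw [abs_le]
    constructor
    · norm_num at hp1 ⊢
      linarith
    · norm_num at hp2 ⊢
      linarith
  have h2 : |(j : ℝ) * (Real.exp 1 * 10000000000 - 27182818283)| ≤ 100 * 3 := by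
    rw [abs_mul]
    refine mul_le_mul hjR ?_ (abs_nonneg _) (by norm_num)
    rw [abs_le]
    constructor
    · norm_num at he1 ⊢
      linarith
    · norm_num at he2 ⊢
      linarith
  have h3 : |((i * 31415926535 + j * 27182818283 - k * 10000000000 : ℤ) : ℝ)| ≤ 400 := by
    have h4 : ((i * 31415926535 + j * 27182818283 - k * 10000000000 : ℤ) : ℝ) =
        -((i : ℝ) * (Real.pi * 10000000000 - 31415926535) + (j : ℝ) * (Real.exp 1 * 10000000000 - 27182818283)) := by
      push_cast
      rw [← h]
      ring
    rw [h4, abs_neg]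
    refine (abs_add_le _ _).trans ?_
    linarith
  have h5 : |i * 31415926535 + j * 27182818283 - k * 10000000000| ≤ 400 := by exact_mod_cast h3
  rw [abs_le] at h5
  have h6 := table a (by omega) b (by omega)
  rcases h6 with ⟨h7, h8⟩ | h7
  · constructor <;> omega
  · exfalso
    set V : ℕ := a * 31415926535 + b * 27182818283 + 400 + (5860000000000 - 100 * (31415926535 + 27182818283)) with hV
    have h8 := Nat.div_add_mod V 10000000000
    have h9 : V % 10000000000 < 10000000000 := Nat.mod_lt _ (by norm_num)
    have hVZ : (V : ℤ) = i * 31415926535 + j * 27182818283 + 400 + 5860000000000 := by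
      rw [hV]
      push_cast
      rw [ha, hb]
      norm_num
      ring
    generalize V / 10000000000 = Q at h8
    generalize V % 10000000000 = R at h7 h8 h9
    have h10 : (10000000000 : ℤ) * Q + R = V := by exact_mod_cast h8
    rw [hVZ] at h10
    set m : ℤ := Q - k - 586 with hm
    have h11 : 10000000000 * m = i * 31415926535 + j * 27182818283 - k * 10000000000 + 400 - R := by
      rw [hm]
      linarith
    have h7' : (800 : ℤ) < R := by exact_mod_cast h7
    have h9' : (R : ℤ) < 10000000000 := by exact_mod_cast h9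
    have h12 : 10000000000 * m < 0 := by linarith [h5.2]
    have h13 : -10000000000 < 10000000000 * m := by linarith [h5.1]
    omega

end Pool.Agent.TH456.PW
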