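import Pool.Agent.TH456.PW.Rat

/-!
# Independence of the functions `log t, t ^ γ, γ ^ (γ t), t ^ (γ t)` and `exp t, exp (exp t)`
-/

set_option autoImplicit false

open Filter Topology Asymptotics Set

namespace Pool.Agent.TH456.PW

open Pool.Agent.TH818.AP

/-- `log t, t^γ, γ^(γ t), t^(γ t)` -/
noncomputable def f4 (γ : ℝ) : Fin 4 → ℝ → ℝ :=
  ![Real.log, fun t => Real.exp (γ * Real.log t), fun t => Real.exp (γ * Real.log γ * t),
    fun t => Real.exp (γ * (t * Real.log t))]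

/-- `log t, t^γ, γ^(γ t), t^(γ t), exp t, exp (exp t)` -/
noncomputable def f6 (γ : ℝ) : Fin 6 → ℝ → ℝ :=
  ![Real.log, fun t => Real.exp (γ * Real.log t), fun t => Real.exp (γ * Real.log γ * t),
    fun t => Real.exp (γ * (t * Real.log t)), Real.exp, fun t => Real.exp (Real.exp t)]

theorem f4_an (γ : ℝ) (i : Fin 4) : AnalyticOnNhd ℝ (f4 γ i) (Ioi 0) := by
  intro t ht
  have h1 : AnalyticAt ℝ Real.log t := analyticAt_log ht
  have h2 : AnalyticAt ℝ (fun t : ℝ => t) t := analyticAt_id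
  fin_cases i
  · exact h1
  · exact (analyticAt_const.mul h1).rexp
  · exact (analyticAt_const.mul h2).rexp
  · exact (analyticAt_const.mul (h2.mul h1)).rexp

theorem f6_an (γ : ℝ) (i : Fin 6) : AnalyticOnNhd ℝ (f6 γ i) (Ioi 0) := by
  intro t ht
  have h1 : AnalyticAt ℝ Real.log t := analyticAt_log ht
  have h2 : AnalyticAt ℝ (fun t : ℝ => t) t := analyticAt_id
  fin_cases i
  · exact h1
  · exact (analyticAt_const.mul h1).rexp
  · exact (analyticAt_const.mul h2).rexp
  · exact (analyticAt_const.mul (h2.mul h1)).rexp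
  · exact h2.rexp
  · exact h2.rexp.rexp

theorem prod_an {r d : ℕ} (f : Fin r → ℝ → ℝ) (hf : ∀ i, AnalyticOnNhd ℝ (f i) (Ioi 0)) (e : Fin r → Fin (d + 1)) :
    AnalyticOnNhd ℝ (fun t => ∏ i, f i t ^ (e i : ℕ)) (Ioi 0) :=
  fun t ht => Finset.analyticAt_fun_prod _ fun i _ => (hf i t ht).pow _

theorem irr_inj {θ : ℝ} (hθ : Irrational θ) {i i' j j' : ℕ} (h : θ * i + j = θ * i' + j') : i = i' := by
  by_contra hne
  have hne' : (i : ℤ) - (i' : ℤ) ≠ 0 := by omega
  have h4 : θ * ((i : ℤ) - (i' : ℤ) : ℤ) = ((j' : ℤ) - (j : ℤ) : ℤ) := by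
    push_cast
    linarith
  exact (hθ.mul_intCast hne').ne_int _ h4

theorem f4_indep (γ : ℝ) (hγ0 : 0 < γ) (hγ1 : γ ≠ 1) (hγ : Irrational γ) (d : ℕ) (a b : ℝ) (ha : 0 < a) (hab : a < b) :
    RIndep (fun (e : Fin 4 → Fin (d + 1)) (t : ℝ) => ∏ i, f4 γ i t ^ (e i : ℕ)) a b := by
  have hlog : Real.log γ ≠ 0 := by
    intro h
    rcases Real.log_eq_zero.1 h with h | h | h
    · linarith
    · exact hγ1 h
    · linarith
  refine rindep _ a b ha hab (fun e => prod_an _ (f4_an γ) e) L4 L4_top L4_o 2 rfl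
    (fun e => ![γ * (e 3 : ℕ), γ * Real.log γ * (e 2 : ℕ), γ * (e 1 : ℕ), (e 0 : ℕ)]) ?_ ?_
  · intro e
    filter_upwards [eventually_gt_atTop 1] with t ht
    have h1 : 0 < Real.log t := Real.log_pos ht
    have h2 : Real.log t ^ (e 0 : ℕ) = Real.exp ((e 0 : ℕ) * Real.log (Real.log t)) := by
      rw [← Real.log_pow, Real.exp_log (pow_pos h1 _)]
    rw [Fin.prod_univ_four, Fin.sum_univ_four]
    simp only [f4, L4, Matrix.cons_val_zero, Matrix.cons_val_one, Matrix.cons_val]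
    rw [h2, ← Real.exp_nat_mul, ← Real.exp_nat_mul, ← Real.exp_nat_mul, ← Real.exp_add, ← Real.exp_add,
      ← Real.exp_add]
    congr 1
    ring
  · intro e e' j j' h1 h2
    have k0 := h1 0 (by decide)
    have k1 := h1 1 (by decide)
    have k3 := h1 3 (by decide)
    simp only [Matrix.cons_val_zero, Matrix.cons_val_one, Matrix.cons_val] at k0 k1 k3 h2
    have e3 : (e 3 : ℕ) = e' 3 := by
      have := mul_left_cancel₀ hγ0.ne' k0
      exact_mod_cast this
    have e2 : (e 2 : ℕ) = e' 2 := by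
      have := mul_left_cancel₀ (mul_ne_zero hγ0.ne' hlog) k1
      exact_mod_cast this
    have e0 : (e 0 : ℕ) = e' 0 := by exact_mod_cast k3
    have e1 : (e 1 : ℕ) = e' 1 := irr_inj hγ h2
    funext i
    fin_cases i
    · exact Fin.ext e0
    · exact Fin.ext e1
    · exact Fin.ext e2
    · exact Fin.ext e3

theorem f6_indep (γ : ℝ) (hγ0 : 0 < γ) (hγ : Irrational γ) (hγl : Irrational (γ * Real.log γ)) (d : ℕ) (a b : ℝ)
    (ha : 0 < a) (hab : a < b) :
    RIndep (fun (e : Fin 6 → Fin (d + 1)) (t : ℝ) => ∏ i, f6 γ i t ^ (e i : ℕ)) a b := by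
  refine rindep _ a b ha hab (fun e => prod_an _ (f6_an γ) e) L5 L5_top L5_o 3 rfl
    (fun e => ![((e 5 : ℕ) : ℝ), γ * (e 3 : ℕ), γ * Real.log γ * (e 2 : ℕ) + (e 4 : ℕ), γ * (e 1 : ℕ), (e 0 : ℕ)])
    ?_ ?_
  · intro e
    filter_upwards [eventually_gt_atTop 1] with t ht
    have h1 : 0 < Real.log t := Real.log_pos ht
    have h2 : Real.log t ^ (e 0 : ℕ) = Real.exp ((e 0 : ℕ) * Real.log (Real.log t)) := by
      rw [← Real.log_pow, Real.exp_log (pow_pos h1 _)]
    rw [Fin.prod_univ_six, Fin.sum_univ_five]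
    simp only [f6, L5, Matrix.cons_val_zero, Matrix.cons_val_one, Matrix.cons_val]
    rw [h2, ← Real.exp_nat_mul, ← Real.exp_nat_mul, ← Real.exp_nat_mul, ← Real.exp_nat_mul, ← Real.exp_nat_mul,
      ← Real.exp_add, ← Real.exp_add, ← Real.exp_add, ← Real.exp_add, ← Real.exp_add]
    congr 1
    ring
  · intro e e' j j' h1 h2
    have k0 := h1 0 (by decide)
    have k1 := h1 1 (by decide)
    have k2 := h1 2 (by decide)
    have k4 := h1 4 (by decide)
    simp only [Matrix.cons_val_zero, Matrix.cons_val_one, Matrix.cons_val] at k0 k1 k2 k4 h2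
    have e5 : (e 5 : ℕ) = e' 5 := by exact_mod_cast k0
    have e3 : (e 3 : ℕ) = e' 3 := by
      have := mul_left_cancel₀ hγ0.ne' k1
      exact_mod_cast this
    have e2 : (e 2 : ℕ) = e' 2 := irr_inj hγl k2
    have e4 : (e 4 : ℕ) = e' 4 := by
      rw [e2] at k2
      have := add_left_cancel k2
      exact_mod_cast this
    have e0 : (e 0 : ℕ) = e' 0 := by exact_mod_cast k4
    have e1 : (e 1 : ℕ) = e' 1 := irr_inj hγ h2
    funext i
    fin_cases i
    · exact Fin.ext e0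
    · exact Fin.ext e1
    · exact Fin.ext e2
    · exact Fin.ext e3
    · exact Fin.ext e4
    · exact Fin.ext e5

end Pool.Agent.TH456.PW
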