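import Mathlib

/-!
# Independence of exponentials of combinations of functions of different growth
-/

set_option autoImplicit false

open Filter Topology Asymptotics Set

namespace Pool.Agent.TH456.PW

theorem tendsto_neg_comb {s : ℕ} (L : Fin s → ℝ → ℝ) (hL : ∀ i, Tendsto (L i) atTop atTop)
    (hLL : ∀ i j, i < j → (L j) =o[atTop] (L i)) (v : Fin s → ℝ) (i : Fin s) (hi : v i < 0)
    (h0 : ∀ j, j < i → v j = 0) : Tendsto (fun t => ∑ k, v k * L k t) atTop atBot := by
  classical
  have h1 : (fun t => ∑ k ∈ Finset.univ.filter (fun k => i < k), v k * L k t) =o[atTop] (L i) := by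
    have h := IsLittleO.sum (s := Finset.univ.filter (fun k => i < k)) (A := fun k t => v k * L k t)
      (l := atTop) (g' := L i) (fun k hk => (hLL i k (Finset.mem_filter.1 hk).2).const_mul_left _)
    refine h.congr_left fun t => ?_
    rw [Finset.sum_apply]
  have h2 : ∀ t, ∑ k, v k * L k t =
      v i * L i t + ∑ k ∈ Finset.univ.filter (fun k => i < k), v k * L k t := by
    intro t
    rw [← Finset.add_sum_erase _ _ (Finset.mem_univ i)]
    congr 1
    symm
    refine Finset.sum_subset_zero_on_sdiff ?_ ?_ (fun _ _ => rfl)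
    · intro k hk
      exact Finset.mem_erase.2 ⟨(Finset.mem_filter.1 hk).2.ne', Finset.mem_univ _⟩
    · intro k hk
      rw [Finset.mem_sdiff, Finset.mem_erase, Finset.mem_filter] at hk
      have hlt : k < i := by
        rcases lt_trichotomy k i with h | h | h
        · exact h
        · exact absurd h hk.1.1
        · exact absurd ⟨Finset.mem_univ _, h⟩ hk.2
      rw [h0 k hlt, zero_mul]
  have h3 : Tendsto (fun t => (v i / 2) * L i t) atTop atBot :=
    (hL i).const_mul_atTop_of_neg (by linarith)
  refine tendsto_atBot_mono' _ ?_ h3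
  have h4 := h1.def (c := -(v i) / 2) (by linarith)
  filter_upwards [h4, (hL i).eventually_ge_atTop 0] with t ht ht0
  rw [h2 t]
  have h5 : ∑ k ∈ Finset.univ.filter (fun k => i < k), v k * L k t ≤ -(v i) / 2 * L i t := by
    refine (le_abs_self _).trans ?_
    rw [← Real.norm_eq_abs]
    refine ht.trans (le_of_eq ?_)
    rw [Real.norm_eq_abs, abs_of_nonneg ht0]
  linarith

theorem coeff_zero {I : Type} [Fintype I] {s : ℕ} (L : Fin s → ℝ → ℝ) (hL : ∀ i, Tendsto (L i) atTop atTop)
    (hLL : ∀ i j, i < j → (L j) =o[atTop] (L i)) (v : I → Fin s → ℝ) (hv : Function.Injective v) (c : I → ℝ)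
    (h : ∀ᶠ t in atTop, ∑ x, c x * Real.exp (∑ k, v x k * L k t) = 0) (x : I) : c x = 0 := by
  classical
  by_contra hx1
  set S : Finset I := Finset.univ.filter fun x => c x ≠ 0 with hS
  obtain ⟨x0, hx0, hmax⟩ := S.exists_max_image (fun x => toLex (v x)) ⟨x, by simp [hS, hx1]⟩
  have hlim : ∀ x ∈ S, x ≠ x0 →
      Tendsto (fun t => Real.exp (∑ k, (v x k - v x0 k) * L k t)) atTop (𝓝 0) := by
    intro x hx hne
    have hlt : toLex (v x) < toLex (v x0) :=
      lt_of_le_of_ne (hmax x hx) (fun h => hne (hv (toLex.injective h)))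
    obtain ⟨i, hj, hi⟩ := hlt
    refine Real.tendsto_exp_atBot.comp
      (tendsto_neg_comb L hL hLL (fun k => v x k - v x0 k) i ?_ ?_)
    · exact sub_neg.2 hi
    · intro j hj'
      exact sub_eq_zero.2 (hj j hj')
  have h3 : Tendsto (fun t => ∑ x ∈ S, c x * Real.exp (∑ k, (v x k - v x0 k) * L k t)) atTop
      (𝓝 (∑ x ∈ S, if x = x0 then c x0 else 0)) := by
    refine tendsto_finsetSum _ fun x hx => ?_
    by_cases hxx : x = x0
    · subst hxx
      simp
    · rw [if_neg hxx]
      have := (hlim x hx hxx).const_mul (c x)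
      simpa using this
  have h4 : Tendsto (fun t => ∑ x ∈ S, c x * Real.exp (∑ k, (v x k - v x0 k) * L k t)) atTop (𝓝 0) := by
    refine tendsto_const_nhds.congr' ?_
    filter_upwards [h] with t ht
    have h5 : ∑ x ∈ S, c x * Real.exp (∑ k, (v x k - v x0 k) * L k t) =
        Real.exp (-∑ k, v x0 k * L k t) * ∑ x, c x * Real.exp (∑ k, v x k * L k t) := by
      rw [Finset.mul_sum]
      refine Finset.sum_subset_zero_on_sdiff (Finset.subset_univ _) ?_ ?_
      · intro y hy
        have : c y = 0 := by
          by_contra hne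
          exact (Finset.mem_sdiff.1 hy).2 (by simp [hS, hne])
        rw [this]
        ring
      · intro y _
        simp only [sub_mul, Finset.sum_sub_distrib]
        rw [sub_eq_add_neg, Real.exp_add]
        ring
    rw [h5, ht, mul_zero]
  have h6 := tendsto_nhds_unique h3 h4
  rw [Finset.sum_ite_eq' S x0 (fun _ => c x0), if_pos hx0] at h6
  have : c x0 ≠ 0 := by
    have := hx0
    simp only [hS, Finset.mem_filter] at this
    exact this.2
  exact this h6

end Pool.Agent.TH456.PW
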