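import Pool.Agent.TH818.AP.Unif
import Pool.Agent.TH456.PW.Scale

/-!
# Independence over the polynomials from growth
-/

set_option autoImplicit false

open Filter Topology Asymptotics Set Polynomial

namespace Pool.Agent.TH456.PW

open Pool.Agent.TH818.AP

/-- Functions `g_l`, analytic on `(0, ∞)` and equal to `exp (∑_k w_(l,k) L_k)` near `∞`, where the `L_k` tend to `∞`
with different rates and `L_(k1) = log`, are independent over `ℝ[t]` if the vectors `w_l + j e_(k1)` (`j` a natural number)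
are distinct. -/
theorem rindep {ι : Type} [Fintype ι] (g : ι → ℝ → ℝ) (a b : ℝ) (ha : 0 < a) (hab : a < b)
    (han : ∀ l, AnalyticOnNhd ℝ (g l) (Ioi 0)) {s : ℕ} (L : Fin s → ℝ → ℝ)
    (hL : ∀ i, Tendsto (L i) atTop atTop) (hLL : ∀ i j, i < j → (L j) =o[atTop] (L i)) (k1 : Fin s)
    (hk1 : L k1 = Real.log) (w : ι → Fin s → ℝ)
    (hg : ∀ l, g l =ᶠ[atTop] fun t => Real.exp (∑ k, w l k * L k t))
    (hinj : ∀ (l l' : ι) (j j' : ℕ), (∀ k, k ≠ k1 → w l k = w l' k) → w l k1 + j = w l' k1 + j' → l = l') :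
    RIndep g a b := by
  classical
  intro p hp
  -- the relation holds on `(0, ∞)`
  have h1 : ∀ t : ℝ, 0 < t → ∑ l, (p l).eval t * g l t = 0 := by
    have hana : AnalyticOnNhd ℝ (fun t : ℝ => ∑ l, (p l).eval t * g l t) (Ioi 0) := by
      intro t ht
      refine Finset.analyticAt_fun_sum _ fun l _ => ?_
      refine AnalyticAt.mul ?_ (han l t ht)
      exact (AnalyticOnNhd.eval_polynomial (𝕜 := ℝ) (p l)) t (Set.mem_univ _)
    have hz : AnalyticOnNhd ℝ (fun _ : ℝ => (0 : ℝ)) (Ioi 0) := fun t _ => analyticAt_const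
    have hm : (a + b) / 2 ∈ Ioi (0 : ℝ) := by simp only [mem_Ioi]; linarith
    have hev : (fun t : ℝ => ∑ l, (p l).eval t * g l t) =ᶠ[𝓝 ((a + b) / 2)] fun _ => 0 := by
      have : Ioo a b ∈ 𝓝 ((a + b) / 2) := Ioo_mem_nhds (by linarith) (by linarith)
      filter_upwards [this] with t ht
      exact hp t ⟨ht.1.le, ht.2.le⟩
    have := hana.eqOn_of_preconnected_of_eventuallyEq hz isPreconnected_Ioi hm hev
    exact fun t ht => this ht
  obtain ⟨D, hD⟩ : ∃ D : ℕ, ∀ l, (p l).natDegree ≤ D :=
    ⟨Finset.univ.sup fun l => (p l).natDegree, fun l => Finset.le_sup (f := fun l => (p l).natDegree) (Finset.mem_univ l)⟩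
  have h2 := coeff_zero (I := ι × Fin (D + 1)) L hL hLL
    (fun x k => w x.1 k + if k = k1 then ((x.2 : ℕ) : ℝ) else 0) (by
      rintro ⟨l, j⟩ ⟨l', j'⟩ hEq
      have hk : ∀ k, k ≠ k1 → w l k = w l' k := by
        intro k hk
        have := congrFun hEq k
        simpa [hk] using this
      have hk1' : w l k1 + ((j : ℕ) : ℝ) = w l' k1 + ((j' : ℕ) : ℝ) := by
        have := congrFun hEq k1
        simpa using this
      have hl := hinj l l' j j' hk hk1'
      subst hl
      have hj : (j : ℕ) = j' := by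
        have : ((j : ℕ) : ℝ) = ((j' : ℕ) : ℝ) := by linarith
        exact_mod_cast this
      exact Prod.ext rfl (Fin.ext hj)) (fun x => (p x.1).coeff x.2) (by
      have hall : ∀ᶠ t in atTop, ∀ l, g l t = Real.exp (∑ k, w l k * L k t) :=
        eventually_all.2 fun l => hg l
      filter_upwards [hall, eventually_gt_atTop 0] with t ht ht0
      refine Eq.trans ?_ (h1 t ht0)
      rw [Fintype.sum_prod_type]
      refine Finset.sum_congr rfl fun l _ => ?_
      rw [ht l, Polynomial.eval_eq_sum_range' (Nat.lt_succ_of_le (hD l)),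
        ← Fin.sum_univ_eq_sum_range (fun i => (p l).coeff i * t ^ i), Finset.sum_mul]
      refine Finset.sum_congr rfl fun j _ => ?_
      simp only [add_mul, Finset.sum_add_distrib, ite_mul, zero_mul, Finset.sum_ite_eq', Finset.mem_univ, if_true]
      rw [Real.exp_add, hk1, ← Real.log_pow, Real.exp_log (pow_pos ht0 _)]
      ring)
  funext l
  ext i
  rcases Nat.lt_or_ge i (D + 1) with h | h
  · exact h2 (l, ⟨i, h⟩)
  · rw [Pi.zero_apply, Polynomial.coeff_zero]
    exact Polynomial.coeff_eq_zero_of_natDegree_lt (lt_of_le_of_lt (hD l) h)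

end Pool.Agent.TH456.PW
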