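import Pool.Agent.TH818.AP.LogZ
import Pool.Agent.TH456.PW.Ind
import Pool.Agent.TH456.TM.E

/-!
# Approximate relations between a constant, `log x` and `x ^ θ` for almost all integers `x`
-/

set_option autoImplicit false

open Filter Topology Asymptotics Set Polynomial

namespace Pool.Agent.TH456.PW

open Pool.Agent.TH818.AP Pool.Agent.TH818.AR

/-- powers of a number with a transcendence measure -/
theorem goodConst {x : ℝ} (hx : TM.MeasT (x : ℂ)) (d : ℕ) : GoodConst (fun e : Fin (d + 1) => x ^ (e : ℕ)) := by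
  intro κ
  obtain ⟨k, c, hk, hc, h⟩ := hx d
  refine ⟨k * max κ 0 + 1, max 1 (1 / c), fun T hT z hz hzT => ?_⟩
  have hT1 : 1 ≤ T := (le_max_left _ _).trans hT
  have hTp : 0 < T := by linarith
  have hTc : 1 ≤ T * c := by
    have := (le_max_right _ _).trans hT
    rwa [div_le_iff₀ hc] at this
  set P : ℤ[X] := ∑ e : Fin (d + 1), C (z e) * X ^ (e : ℕ) with hP
  have hcoeff : ∀ j, P.coeff j = if h : j < d + 1 then z ⟨j, h⟩ else 0 := by
    intro j
    rw [hP, finsetSum_coeff]
    simp only [coeff_C_mul, coeff_X_pow]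
    split_ifs with hj
    · rw [Finset.sum_eq_single ⟨j, hj⟩]
      · simp
      · intro b _ hb
        rw [if_neg (fun hh => hb (Fin.ext hh.symm)), mul_zero]
      · simp
    · refine Finset.sum_eq_zero fun b _ => ?_
      have hne : ¬ j = (b : ℕ) := fun hh => hj (by rw [hh]; exact b.isLt)
      rw [if_neg hne, mul_zero]
  have hP0 : P ≠ 0 := by
    intro h0
    apply hz
    funext e
    have := hcoeff e
    rw [h0, Polynomial.coeff_zero, dif_pos e.isLt] at this
    exact this.symm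
  have hPd : P.natDegree ≤ d := by
    refine natDegree_sum_le_of_forall_le _ _ fun e _ => ?_
    refine (natDegree_C_mul_X_pow_le _ _).trans ?_
    omega
  have hH : (1 : ℝ) ≤ T ^ (max κ 0) := Real.one_le_rpow hT1 (le_max_right _ _)
  have h1 := h P hP0 hPd (T ^ (max κ 0)) hH (by
    intro j
    rw [hcoeff j]
    split_ifs with hj
    · exact (hzT _).trans (Real.rpow_le_rpow_of_exponent_le hT1 (le_max_left _ _))
    · simpa using hH.trans' zero_le_one)
  rw [← TM.abs_aeval] at h1
  have h2 : aeval x P = ∑ e, (z e : ℝ) * x ^ (e : ℕ) := by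
    rw [hP, map_sum]
    refine Finset.sum_congr rfl fun e _ => ?_
    simp
  rw [h2] at h1
  have h3 : (T ^ (max κ 0)) ^ k = T ^ (k * max κ 0) := by
    rw [← Real.rpow_mul hTp.le, mul_comm]
  rw [h3] at h1
  have h4 : 0 < T ^ (k * max κ 0) := Real.rpow_pos_of_pos hTp _
  rw [Real.rpow_neg hTp.le, Real.rpow_add hTp, Real.rpow_one, inv_le_iff_one_le_mul₀ (by positivity)]
  calc (1 : ℝ) ≤ T * c := hTc
    _ ≤ T * (T ^ (k * max κ 0) * |∑ e, (z e : ℝ) * x ^ (e : ℕ)|) := by gcongr
    _ = _ := by ring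

/-- the functions `t^(iθ) (log t)^l` -/
noncomputable def gI (θ : ℝ) (d1 d2 : ℕ) (x : Fin (d2 + 1) × Fin (d1 + 1)) (t : ℝ) : ℝ :=
  Real.exp ((x.1 : ℕ) * θ * Real.log t) * Real.log t ^ (x.2 : ℕ)

theorem gI_an (θ : ℝ) (d1 d2 : ℕ) (x : Fin (d2 + 1) × Fin (d1 + 1)) : AnalyticOnNhd ℝ (gI θ d1 d2 x) (Ioi 0) := by
  intro t ht
  have h1 : AnalyticAt ℝ Real.log t := analyticAt_log ht
  exact ((analyticAt_const.mul h1).rexp).mul (h1.pow _)

theorem loglog_top : Tendsto (fun t : ℝ => Real.log (Real.log t)) atTop atTop :=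
  Real.tendsto_log_atTop.comp Real.tendsto_log_atTop

theorem loglog_o : (fun t : ℝ => Real.log (Real.log t)) =o[atTop] Real.log :=
  Real.isLittleO_log_id_atTop.comp_tendsto Real.tendsto_log_atTop

theorem gI_indep (θ : ℝ) (hθ : Irrational θ) (d1 d2 : ℕ) (a b : ℝ) (ha : 0 < a) (hab : a < b) :
    RIndep (gI θ d1 d2) a b := by
  refine rindep (gI θ d1 d2) a b ha hab (gI_an θ d1 d2)
    (![Real.log, fun t => Real.log (Real.log t)] : Fin 2 → ℝ → ℝ) ?_ ?_ 0 rfl
    (fun x => ![(x.1 : ℕ) * θ, (x.2 : ℕ)]) ?_ ?_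
  · intro i
    fin_cases i
    · exact Real.tendsto_log_atTop
    · exact loglog_top
  · intro i j hij
    fin_cases i <;> fin_cases j
    · exact absurd hij (lt_irrefl _)
    · exact loglog_o
    · exact absurd hij (by decide)
    · exact absurd hij (lt_irrefl _)
  · intro x
    filter_upwards [eventually_gt_atTop 1] with t ht
    have h1 : 0 < Real.log t := Real.log_pos ht
    simp only [gI, Fin.sum_univ_two, Matrix.cons_val_zero, Matrix.cons_val_one]
    rw [Real.exp_add]
    congr 1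
    rw [← Real.log_pow, Real.exp_log (pow_pos h1 _)]
  · rintro ⟨i, l⟩ ⟨i', l'⟩ j j' h1 h2
    have h3 := h1 1 (by decide)
    simp only [Matrix.cons_val_one, Matrix.cons_val_zero, Nat.cast_inj] at h2 h3
    have hl : l = l' := Fin.ext (by simpa using h3)
    subst hl
    have hi : (i : ℕ) = i' := by
      by_contra hne
      have hne' : ((i : ℕ) : ℤ) - ((i' : ℕ) : ℤ) ≠ 0 := by omega
      have h4 : θ * (((i : ℕ) : ℤ) - ((i' : ℕ) : ℤ) : ℤ) = ((j' : ℤ) - (j : ℤ) : ℤ) := by
        push_cast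
        linarith
      exact (hθ.mul_intCast hne').ne_int _ h4
    exact Prod.ext (Fin.ext hi) rfl

end Pool.Agent.TH456.PW
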