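import Pool.Agent.TH456.PW.Int

/-!
# Approximate relations between a constant, `log x` and `x ^ θ` for almost all integers `x`, main theorem
-/

set_option autoImplicit false

open Filter Topology Asymptotics Set Polynomial

namespace Pool.Agent.TH456.PW

open Pool.Agent.TH818.AP Pool.Agent.TH818.AR

/-- the matrix of the functions at `N t` in terms of the functions at `t`, `L = log N` -/
noncomputable def tauI (θ : ℝ) (d1 d2 : ℕ) (L : ℝ) (x y : Fin (d2 + 1) × Fin (d1 + 1)) : ℝ :=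
  if x.1 = y.1 then Real.exp ((x.1 : ℕ) * θ * L) * tauL d1 L x.2 y.2 else 0

theorem tri_tauI {θ L : ℝ} (hθ : 0 ≤ θ) (hL : 0 ≤ L) (d1 d2 : ℕ) :
    Tri (fun x : Fin (d2 + 1) × Fin (d1 + 1) => (x.2 : ℕ)) (tauI θ d1 d2 L) := by
  constructor
  · intro x
    have h1 : tauL d1 L x.2 x.2 = 1 := by simp [tauL]
    have h2 : 1 ≤ Real.exp ((x.1 : ℕ) * θ * L) := Real.one_le_exp (by positivity)
    simp only [tauI, if_true, h1, mul_one]
    exact h2.trans (le_abs_self _)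
  · intro x y hne hle
    simp only [tauI]
    split_ifs with h
    · have h3 : x.2 ≠ y.2 := fun hh => hne (Prod.ext h hh)
      have hlt : (x.2 : ℕ) < y.2 := lt_of_le_of_ne hle (fun hh => h3 (Fin.ext hh))
      simp [tauL, Nat.choose_eq_zero_of_lt hlt]
    · rfl

theorem sum_tauI (θ : ℝ) (d1 d2 : ℕ) (L t : ℝ) (x : Fin (d2 + 1) × Fin (d1 + 1)) :
    ∑ y, tauI θ d1 d2 L x y * gI θ d1 d2 y t =
      Real.exp ((x.1 : ℕ) * θ * (L + Real.log t)) * (L + Real.log t) ^ (x.2 : ℕ) := by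
  rw [Fintype.sum_prod_type, Finset.sum_eq_single x.1]
  · simp only [tauI, gI, if_true]
    rw [← sum_tauL, Finset.mul_sum]
    refine Finset.sum_congr rfl fun l _ => ?_
    rw [mul_add, Real.exp_add]
    ring
  · intro i _ hi
    refine Finset.sum_eq_zero fun l _ => ?_
    simp only [tauI]
    rw [if_neg (fun h => hi h.symm), zero_mul]
  · simp

/-- the exceptional integers in `[N, 2N]` -/
def ExcI (γ θ : ℝ) (d0 d1 d2 N : ℕ) (A B : ℝ) : Set ℕ :=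
  {x | N ≤ x ∧ x ≤ 2 * N ∧ ∃ c : Fin (d0 + 1) × Fin (d1 + 1) × Fin (d2 + 1) → ℤ, c ≠ 0 ∧
    (∀ e, |(c e : ℝ)| ≤ (N : ℝ) ^ A) ∧
    |∑ e, (c e : ℝ) * (γ ^ (e.1 : ℕ) * Real.log x ^ (e.2.1 : ℕ) * ((x : ℝ) ^ θ) ^ (e.2.2 : ℕ))| ≤ (N : ℝ) ^ (-B)}

theorem ExcI_fin (γ θ : ℝ) (d0 d1 d2 N : ℕ) (A B : ℝ) : (ExcI γ θ d0 d1 d2 N A B).Finite :=
  (Set.finite_Icc N (2 * N)).subset fun _ hx => ⟨hx.1, hx.2.1⟩

/-- the reindexing -/
def eqI (d0 d1 d2 : ℕ) : Fin (d0 + 1) × Fin (d1 + 1) × Fin (d2 + 1) ≃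
    (Fin (d2 + 1) × Fin (d1 + 1)) × Fin (d0 + 1) where
  toFun e := ((e.2.2, e.2.1), e.1)
  invFun y := (y.2, y.1.2, y.1.1)
  left_inv _ := rfl
  right_inv _ := rfl

theorem almost_allI (γ θ : ℝ) (hγ : ∀ d, GoodConst (fun e : Fin (d + 1) => γ ^ (e : ℕ))) (hθ0 : 0 ≤ θ)
    (hθ : Irrational θ) (d0 d1 d2 : ℕ) (A β : ℝ) (hA : 0 ≤ A)
    (hβ : (((d0 + 1) * (d1 + 1) * (d2 + 1) : ℕ) : ℝ) / ((((d0 + 1) * (d1 + 1) * (d2 + 1) : ℕ) : ℝ) + 1) < β) :
    ∃ B C T0 : ℝ, 0 < C ∧ 1 ≤ T0 ∧ ∀ N : ℕ, T0 ≤ (N : ℝ) →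
      ((ExcI γ θ d0 d1 d2 N A B).ncard : ℝ) ≤ C * (N : ℝ) ^ β := by
  classical
  have hcard : Fintype.card (Fin (d2 + 1) × Fin (d1 + 1)) * Fintype.card (Fin (d0 + 1)) =
      (d0 + 1) * (d1 + 1) * (d2 + 1) := by
    simp only [Fintype.card_prod, Fintype.card_fin]
    ring
  obtain ⟨κ, C1, hC1, hU⟩ := uniformZ bd tlow Pool.Agent.TH818.AR.taylor det2 aux2 (h := Fin (d0 + 1))
    (gI θ d1 d2) 1 2 (by norm_num)
    (fun l t ht => gI_an θ d1 d2 l t (lt_of_lt_of_le one_pos ht.1)) (gI_indep θ hθ d1 d2 1 2 one_pos (by norm_num))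
    (fun x : Fin (d2 + 1) × Fin (d1 + 1) => (x.2 : ℕ)) A β hA _ hcard hβ
  obtain ⟨B1, T1, hs⟩ := hγ d0 κ
  obtain ⟨B, T2, hT2, hU'⟩ := hU B1
  refine ⟨B, C1, max T1 T2, hC1, le_max_of_le_right hT2, ?_⟩
  intro N hT
  have hTT1 : T1 ≤ (N : ℝ) := (le_max_left _ _).trans hT
  have hTT2 : T2 ≤ (N : ℝ) := (le_max_right _ _).trans hT
  have hTge : (1 : ℝ) ≤ N := hT2.trans hTT2
  have hTp : (0 : ℝ) < N := by linarith
  obtain ⟨hfin, hle⟩ := hU' N N rfl hTT2 (tauI θ d1 d2 (Real.log N))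
    (tri_tauI hθ0 (Real.log_nonneg hTge) d1 d2) _ (hs N hTT1)
  refine le_trans ?_ hle
  have hkey : ∀ x ∈ ExcI γ θ d0 d1 d2 N A B, ((x : ℚ) / N) ∈
      ExcCZ (gI θ d1 d2) 1 2 A B N N (tauI θ d1 d2 (Real.log N)) (fun e : Fin (d0 + 1) => γ ^ (e : ℕ)) := by
    rintro x ⟨hx1, hx2, c, hc0, hc, hcs⟩
    have hx0 : (N : ℝ) ≤ x := by exact_mod_cast hx1
    have hx0' : (x : ℝ) ≤ 2 * N := by exact_mod_cast hx2
    have hxp : (0 : ℝ) < x := by linarith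
    refine ⟨⟨?_, ?_⟩, ⟨x, by push_cast; rfl⟩, fun l => c ((eqI d0 d1 d2).symm l), ?_, fun l => hc _, ?_⟩
    · push_cast
      rw [le_div_iff₀ hTp]
      linarith
    · push_cast
      rw [div_le_iff₀ hTp]
      linarith
    · intro hcon
      apply hc0
      funext e
      have := congrFun hcon (eqI d0 d1 d2 e)
      simpa using this
    · rw [← Equiv.sum_comp (eqI d0 d1 d2)]
      refine le_trans (le_of_eq ?_) hcs
      congr 1
      refine Finset.sum_congr rfl fun e _ => ?_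
      rw [sum_tauI]
      have hlog : Real.log N + Real.log (((x : ℚ) / N : ℚ) : ℝ) = Real.log x := by
        push_cast
        rw [Real.log_div (by linarith) hTp.ne']
        ring
      rw [hlog]
      simp only [Equiv.symm_apply_apply]
      simp only [eqI, Equiv.coe_fn_mk]
      have h5 : ((x : ℝ) ^ θ) ^ (e.2.2 : ℕ) = Real.exp ((e.2.2 : ℕ) * θ * Real.log x) := by
        rw [Real.rpow_def_of_pos hxp, ← Real.exp_nat_mul]
        congr 1
        ring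
      rw [h5]
      ring
  have hinj : Set.InjOn (fun x : ℕ => (x : ℚ) / N) (ExcI γ θ d0 d1 d2 N A B) := by
    intro x _ y _ hxy
    have hN : (N : ℚ) ≠ 0 := by exact_mod_cast hTp.ne'
    have := (div_left_inj' hN).1 hxy
    exact_mod_cast this
  have h6 := Set.ncard_le_ncard (s := (fun x : ℕ => (x : ℚ) / N) '' ExcI γ θ d0 d1 d2 N A B)
    (by
      rintro _ ⟨x, hx, rfl⟩
      exact hkey x hx) hfin
  rw [hinj.ncard_image] at h6
  exact_mod_cast h6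

end Pool.Agent.TH456.PW
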