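import Pool.Agent.TH456.PW.PolyG

/-!
# Polynomials in one number `exp (c₁ t log t + c₀ t)`
-/

set_option autoImplicit false

open Filter Topology Asymptotics Set

namespace Pool.Agent.TH456.PW

open Pool.Agent.TH818.AP

/-- `exp (c₁ t log t + c₀ t)` -/
noncomputable def f1 (c1 c0 : ℝ) (t : ℝ) : ℝ := Real.exp (c1 * (t * Real.log t) + c0 * t)

theorem f1_an (c1 c0 : ℝ) : AnalyticOnNhd ℝ (f1 c1 c0) (Ioi 0) := by
  intro t ht
  have h1 : AnalyticAt ℝ Real.log t := analyticAt_log ht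
  have h2 : AnalyticAt ℝ (fun t : ℝ => t) t := analyticAt_id
  exact ((analyticAt_const.mul (h2.mul h1)).add (analyticAt_const.mul h2)).rexp

theorem f1_indep (c1 c0 : ℝ) (hc : c1 ≠ 0 ∨ c0 ≠ 0) (d : ℕ) (a b : ℝ) (ha : 0 < a) (hab : a < b) :
    RIndep (fun (l : Fin (d + 1)) (t : ℝ) => f1 c1 c0 t ^ (l : ℕ)) a b := by
  refine rindep _ a b ha hab (fun l t ht => (f1_an c1 c0 t ht).pow _) L4 L4_top L4_o 2 rfl
    (fun l => ![c1 * (l : ℕ), c0 * (l : ℕ), 0, 0]) ?_ ?_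
  · intro l
    refine Eventually.of_forall fun t => ?_
    show f1 c1 c0 t ^ (l : ℕ) = Real.exp (∑ k, ![c1 * ((l : ℕ) : ℝ), c0 * (l : ℕ), 0, 0] k * L4 k t)
    rw [Fin.sum_univ_four]
    simp only [f1, L4, Matrix.cons_val_zero, Matrix.cons_val_one, Matrix.cons_val]
    rw [← Real.exp_nat_mul]
    congr 1
    ring
  · intro l l' j j' h1 _
    have k0 := h1 0 (by decide)
    have k1 := h1 1 (by decide)
    simp only [Matrix.cons_val_zero, Matrix.cons_val_one] at k0 k1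
    rcases hc with hc | hc
    · have := mul_left_cancel₀ hc k0
      exact Fin.ext (by exact_mod_cast this)
    · have := mul_left_cancel₀ hc k1
      exact Fin.ext (by exact_mod_cast this)

/-- the exceptional rationals -/
def ExcP (f : ℝ → ℝ) (d : ℕ) (a b A B T : ℝ) : Set ℚ :=
  {t : ℚ | a ≤ t ∧ t ≤ b ∧ (t.den : ℝ) ≤ T ∧ ∃ P : Polynomial ℤ, P ≠ 0 ∧ P.natDegree ≤ d ∧
    (∀ i, |((P.coeff i : ℤ) : ℝ)| ≤ T ^ A) ∧ |Polynomial.aeval (f t) P| ≤ T ^ (-B)}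

theorem poly1 (f : ℝ → ℝ) (a b : ℝ) (hab : a < b) (han : AnalyticOnNhd ℝ f (Icc a b)) (d : ℕ)
    (hind : RIndep (fun (l : Fin (d + 1)) (t : ℝ) => f t ^ (l : ℕ)) a b) (A β : ℝ) (hA : 0 ≤ A)
    (hβ : 2 - 2 / ((d : ℝ) + 2) < β) :
    ∃ B C : ℝ, ∀ T : ℝ, 1 ≤ T → (ExcP f d a b A B T).Finite ∧ ((ExcP f d a b A B T).ncard : ℝ) ≤ C * T ^ β := by
  obtain ⟨B, C, h⟩ := almost_all (fun (l : Fin (d + 1)) (t : ℝ) => f t ^ (l : ℕ)) a b hab
    (fun l t ht => (han t ht).pow _) hind (fun _ : Unit => (1 : ℝ)) goodConst_one A β hA (d + 1)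
    (by simp) (by
      refine lt_of_le_of_lt (le_of_eq ?_) hβ
      push_cast
      field_simp
      ring)
  refine ⟨B, C, fun T hT => ?_⟩
  obtain ⟨hfin, hle⟩ := h T hT
  have hsub : ExcP f d a b A B T ⊆
      ExcC (fun (l : Fin (d + 1)) (t : ℝ) => f t ^ (l : ℕ)) a b A B T (fun _ : Unit => (1 : ℝ)) := by
    rintro t ⟨h1, h2, h3, P, hP0, hPd, hPc, hPs⟩
    refine ⟨⟨h1, h2⟩, h3, fun x => P.coeff x.1, ?_, fun x => hPc _, ?_⟩
    · intro hcon
      apply hP0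
      ext i
      rw [Polynomial.coeff_zero]
      rcases Nat.lt_or_ge i (d + 1) with hi | hi
      · exact congrFun hcon (⟨i, hi⟩, ())
      · exact Polynomial.coeff_eq_zero_of_natDegree_lt (lt_of_le_of_lt hPd hi)
    · refine le_trans (le_of_eq ?_) hPs
      congr 1
      rw [Polynomial.aeval_eq_sum_range' (Nat.lt_succ_of_le hPd),
        ← Fin.sum_univ_eq_sum_range (fun i => P.coeff i • f t ^ i), Fintype.sum_prod_type]
      refine Finset.sum_congr rfl fun l _ => ?_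
      simp
  refine ⟨hfin.subset hsub, le_trans ?_ hle⟩
  exact_mod_cast Set.ncard_le_ncard hsub hfin

end Pool.Agent.TH456.PW
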