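import Pool.Agent.TH456.PW.Int2

/-!
# Polynomials in three numbers
-/

set_option autoImplicit false

namespace Pool.Agent.TH456.PW

open Pool.Agent.TH818.AP

/-- exponent vectors -/
noncomputable def s3 {d0 d1 d2 : ℕ} (e : Fin (d0 + 1) × Fin (d1 + 1) × Fin (d2 + 1)) : Fin 3 →₀ ℕ :=
  Finsupp.equivFunOnFinite.symm ![(e.1 : ℕ), (e.2.1 : ℕ), (e.2.2 : ℕ)]

theorem s3_inj {d0 d1 d2 : ℕ} : Function.Injective (s3 (d0 := d0) (d1 := d1) (d2 := d2)) := by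
  intro e e' h
  have h0 := DFunLike.congr_fun h 0
  have h1 := DFunLike.congr_fun h 1
  have h2 := DFunLike.congr_fun h 2
  simp only [s3, Finsupp.equivFunOnFinite_symm_apply_apply, Matrix.cons_val_zero, Matrix.cons_val_one,
    Matrix.cons_val] at h0 h1 h2
  exact Prod.ext (Fin.ext h0) (Prod.ext (Fin.ext h1) (Fin.ext h2))

theorem s3_surj {d0 d1 d2 : ℕ} (u : Fin 3 →₀ ℕ) (h0 : u 0 ≤ d0) (h1 : u 1 ≤ d1) (h2 : u 2 ≤ d2) :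
    s3 ((⟨u 0, Nat.lt_succ_of_le h0⟩, ⟨u 1, Nat.lt_succ_of_le h1⟩, ⟨u 2, Nat.lt_succ_of_le h2⟩) :
      Fin (d0 + 1) × Fin (d1 + 1) × Fin (d2 + 1)) = u := by
  ext x
  fin_cases x <;> simp [s3]

theorem aeval3 {d0 d1 d2 : ℕ} (f : Fin 3 → ℝ) (P : MvPolynomial (Fin 3) ℤ)
    (h0 : P.degreeOf 0 ≤ d0) (h1 : P.degreeOf 1 ≤ d1) (h2 : P.degreeOf 2 ≤ d2) : MvPolynomial.aeval f P =
      ∑ e : Fin (d0 + 1) × Fin (d1 + 1) × Fin (d2 + 1), ((P.coeff (s3 e) : ℤ) : ℝ) *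
        (f 0 ^ (e.1 : ℕ) * f 1 ^ (e.2.1 : ℕ) * f 2 ^ (e.2.2 : ℕ)) := by
  classical
  have hm : ∀ e : Fin (d0 + 1) × Fin (d1 + 1) × Fin (d2 + 1),
      f 0 ^ (e.1 : ℕ) * f 1 ^ (e.2.1 : ℕ) * f 2 ^ (e.2.2 : ℕ) = ∏ x, f x ^ (s3 e x) := by
    intro e
    rw [Fin.prod_univ_three]
    simp [s3]
  simp only [hm]
  rw [MvPolynomial.aeval_def, MvPolynomial.eval₂_eq']
  rw [← Finset.sum_image (f := fun u : Fin 3 →₀ ℕ => ((P.coeff u : ℤ) : ℝ) * ∏ x, f x ^ (u x))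
    (fun a _ b _ hab => s3_inj hab)]
  refine Finset.sum_subset_zero_on_sdiff ?_ ?_ ?_
  · intro u hu
    rw [Finset.mem_image]
    exact ⟨_, Finset.mem_univ _, s3_surj u ((MvPolynomial.monomial_le_degreeOf 0 hu).trans h0)
      ((MvPolynomial.monomial_le_degreeOf 1 hu).trans h1) ((MvPolynomial.monomial_le_degreeOf 2 hu).trans h2)⟩
  · intro u hu
    rw [Finset.mem_sdiff, MvPolynomial.notMem_support_iff] at hu
    rw [hu.2]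
    simp
  · intro u _
    simp

theorem coeff_ne3 {d0 d1 d2 : ℕ} (P : MvPolynomial (Fin 3) ℤ) (hP0 : P ≠ 0)
    (h0 : P.degreeOf 0 ≤ d0) (h1 : P.degreeOf 1 ≤ d1) (h2 : P.degreeOf 2 ≤ d2) :
    (fun e : Fin (d0 + 1) × Fin (d1 + 1) × Fin (d2 + 1) => P.coeff (s3 e)) ≠ 0 := by
  intro h
  apply hP0
  ext u
  rw [MvPolynomial.coeff_zero]
  by_contra hs
  have hs' : u ∈ P.support := MvPolynomial.mem_support_iff.2 hs
  have := congrFun h (⟨u 0, Nat.lt_succ_of_le ((MvPolynomial.monomial_le_degreeOf 0 hs').trans h0)⟩,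
    ⟨u 1, Nat.lt_succ_of_le ((MvPolynomial.monomial_le_degreeOf 1 hs').trans h1)⟩,
    ⟨u 2, Nat.lt_succ_of_le ((MvPolynomial.monomial_le_degreeOf 2 hs').trans h2)⟩)
  apply hs
  have he := s3_surj (d0 := d0) (d1 := d1) (d2 := d2) u ((MvPolynomial.monomial_le_degreeOf 0 hs').trans h0)
    ((MvPolynomial.monomial_le_degreeOf 1 hs').trans h1) ((MvPolynomial.monomial_le_degreeOf 2 hs').trans h2)
  simp only [he, Pi.zero_apply] at this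
  exact this

/-- The integers `x` in `[N, 2N]` for which some nonzero integer polynomial `P` in three variables, of degrees at most
`d0`, `d1`, `d2` and with coefficients at most `N ^ A` in absolute value, has `|P (γ, log x, x ^ θ)| ≤ N ^ (-B)`. -/
def Exc (γ θ : ℝ) (d0 d1 d2 N : ℕ) (A B : ℝ) : Set ℕ :=
  {x | N ≤ x ∧ x ≤ 2 * N ∧ ∃ P : MvPolynomial (Fin 3) ℤ, P ≠ 0 ∧
    P.degreeOf 0 ≤ d0 ∧ P.degreeOf 1 ≤ d1 ∧ P.degreeOf 2 ≤ d2 ∧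
    (∀ u, |((P.coeff u : ℤ) : ℝ)| ≤ (N : ℝ) ^ A) ∧
    |MvPolynomial.aeval ![γ, Real.log x, (x : ℝ) ^ θ] P| ≤ (N : ℝ) ^ (-B)}

theorem Exc_fin (γ θ : ℝ) (d0 d1 d2 N : ℕ) (A B : ℝ) : (Exc γ θ d0 d1 d2 N A B).Finite :=
  (Set.finite_Icc N (2 * N)).subset fun _ hx => ⟨hx.1, hx.2.1⟩

theorem Exc_sub (γ θ : ℝ) (d0 d1 d2 N : ℕ) (A B : ℝ) : Exc γ θ d0 d1 d2 N A B ⊆ ExcI γ θ d0 d1 d2 N A B := by
  rintro x ⟨h1, h2, P, hP0, hd0, hd1, hd2, hc, hs⟩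
  refine ⟨h1, h2, fun e => P.coeff (s3 e), coeff_ne3 P hP0 hd0 hd1 hd2, fun e => hc _, ?_⟩
  rw [aeval3 _ P hd0 hd1 hd2] at hs
  exact hs

theorem exc_bound (γ θ : ℝ) (hγ : ∀ d, GoodConst (fun e : Fin (d + 1) => γ ^ (e : ℕ))) (hθ0 : 0 ≤ θ)
    (hθ : Irrational θ) (d0 d1 d2 : ℕ) (A β : ℝ) (hA : 0 ≤ A)
    (hβ : 1 - 1 / (((d0 : ℝ) + 1) * (d1 + 1) * (d2 + 1) + 1) < β) :
    ∃ B0 C : ℝ, ∀ B : ℝ, B0 ≤ B → ∀ N : ℕ, 1 ≤ N →
      ((Exc γ θ d0 d1 d2 N A B).ncard : ℝ) ≤ C * (N : ℝ) ^ β := by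
  have hβ0 : 0 ≤ β := by
    refine le_trans ?_ hβ.le
    rw [sub_nonneg, div_le_one (by positivity)]
    have : (0 : ℝ) ≤ ((d0 : ℝ) + 1) * (d1 + 1) * (d2 + 1) := by positivity
    linarith
  obtain ⟨B, C, T0, hC, hT0, h⟩ := almost_allI γ θ hγ hθ0 hθ d0 d1 d2 A β hA (by
    refine lt_of_le_of_lt (le_of_eq ?_) hβ
    push_cast
    field_simp
    ring)
  refine ⟨B, C + (T0 + 1), fun B' hB' N hN => ?_⟩
  have hN1 : (1 : ℝ) ≤ N := by exact_mod_cast hN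
  have hNβ : 1 ≤ (N : ℝ) ^ β := Real.one_le_rpow hN1 hβ0
  rcases le_or_gt T0 (N : ℝ) with hT | hT
  · have h1 : Exc γ θ d0 d1 d2 N A B' ⊆ ExcI γ θ d0 d1 d2 N A B := by
      refine Set.Subset.trans ?_ (Exc_sub γ θ d0 d1 d2 N A B)
      rintro x ⟨h1, h2, P, hP0, hd0, hd1, hd2, hc, hs⟩
      refine ⟨h1, h2, P, hP0, hd0, hd1, hd2, hc, hs.trans ?_⟩
      exact Real.rpow_le_rpow_of_exponent_le hN1 (by linarith)
    have h2 := Set.ncard_le_ncard h1 (ExcI_fin _ _ _ _ _ _ _ _)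
    calc ((Exc γ θ d0 d1 d2 N A B').ncard : ℝ) ≤ ((ExcI γ θ d0 d1 d2 N A B).ncard : ℝ) := by exact_mod_cast h2
      _ ≤ C * (N : ℝ) ^ β := h N hT
      _ ≤ (C + (T0 + 1)) * (N : ℝ) ^ β := by
        refine mul_le_mul_of_nonneg_right ?_ (by linarith)
        linarith
  · have h1 : Exc γ θ d0 d1 d2 N A B' ⊆ Set.Icc N (2 * N) := fun x hx => ⟨hx.1, hx.2.1⟩
    have h2 := Set.ncard_le_ncard h1 (Set.finite_Icc _ _)
    have h3 : (Set.Icc N (2 * N)).ncard = N + 1 := by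
      rw [← Finset.coe_Icc, Set.ncard_coe_finset, Nat.card_Icc]
      omega
    rw [h3] at h2
    calc ((Exc γ θ d0 d1 d2 N A B').ncard : ℝ) ≤ ((N + 1 : ℕ) : ℝ) := by exact_mod_cast h2
      _ ≤ T0 + 1 := by push_cast; linarith
      _ ≤ (C + (T0 + 1)) * 1 := by linarith
      _ ≤ (C + (T0 + 1)) * (N : ℝ) ^ β := by
        refine mul_le_mul_of_nonneg_left hNβ ?_
        linarith

end Pool.Agent.TH456.PW
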