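import Pool.Agent.TH456.PW.Fam

/-!
# From linear forms in monomials to polynomials, with a constant `γ` which has a transcendence measure
(the proof of `TH818.AP.polys` with `γ` instead of `π`)
-/

set_option autoImplicit false

namespace Pool.Agent.TH456.PW

open Pool.Agent.TH818.AP

/-- The ready-to-use statement: functions `f_i` (`i < s`) of one variable, the same for all `n` parameters, whose monomials
are independent over `ℝ[t]` on `[a,b]`; for almost all `n`-tuples of rationals no polynomial of degree `≤ d` in each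
variable and coefficients `≤ T^A` is small at `(γ, f_i(t_j))`. -/
theorem polysG {s d : ℕ} (γ : ℝ) (hγ : GoodConst (fun e : Fin (d + 1) => γ ^ (e : ℕ))) (f : Fin s → ℝ → ℝ) (a b : ℝ) (hab : a < b)
    (han : ∀ i, AnalyticOnNhd ℝ (f i) (Set.Icc a b))
    (hg : RIndep (fun (e : Fin s → Fin (d + 1)) (t : ℝ) => ∏ i, f i t ^ (e i : ℕ)) a b)
    (n : ℕ) (hn : 1 ≤ n) (A β : ℝ) (hA : 0 ≤ A) (hβ : 2 - 2 / (((d : ℝ) + 1) ^ (s * n + 1) + 1) < β) :
    ∃ B C : ℝ, ∀ T : ℝ, 1 ≤ T →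
      {t : Fin n → ℚ | (∀ j, a ≤ t j ∧ t j ≤ b ∧ ((t j).den : ℝ) ≤ T) ∧
        ∃ P : MvPolynomial (Option (Fin n × Fin s)) ℤ, P ≠ 0 ∧ (∀ x, P.degreeOf x ≤ d) ∧
          (∀ u, |((P.coeff u : ℤ) : ℝ)| ≤ T ^ A) ∧
          |MvPolynomial.aeval (fun x : Option (Fin n × Fin s) =>
            x.elim γ fun y => f y.2 (t y.1)) P| ≤ T ^ (-B)}.Finite ∧
      (({t : Fin n → ℚ | (∀ j, a ≤ t j ∧ t j ≤ b ∧ ((t j).den : ℝ) ≤ T) ∧
        ∃ P : MvPolynomial (Option (Fin n × Fin s)) ℤ, P ≠ 0 ∧ (∀ x, P.degreeOf x ≤ d) ∧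
          (∀ u, |((P.coeff u : ℤ) : ℝ)| ≤ T ^ A) ∧
          |MvPolynomial.aeval (fun x : Option (Fin n × Fin s) =>
            x.elim γ fun y => f y.2 (t y.1)) P| ≤ T ^ (-B)}.ncard : ℕ) : ℝ) ≤
        C * T ^ (2 * ((n : ℝ) - 1) + β) := by
  classical
  have hι : 0 < Fintype.card (Fin s → Fin (d + 1)) := Fintype.card_pos
  have hcard : (Fintype.card (Fin s → Fin (d + 1))) ^ n * Fintype.card (Fin (d + 1)) = (d + 1) ^ (s * n + 1) := by
    simp only [Fintype.card_pi, Fintype.card_fin, Finset.prod_const, Finset.card_univ]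
    rw [← pow_mul, ← pow_succ]
  have hβ' : 2 * (((Fintype.card (Fin s → Fin (d + 1))) ^ n * Fintype.card (Fin (d + 1)) : ℕ) : ℝ) /
      ((((Fintype.card (Fin s → Fin (d + 1))) ^ n * Fintype.card (Fin (d + 1)) : ℕ) : ℝ) + 1) < β := by
    rw [hcard]
    refine lt_of_le_of_lt (le_of_eq ?_) hβ
    have hM0 : (0 : ℝ) < ((d : ℝ) + 1) ^ (s * n + 1) := by positivity
    push_cast
    field_simp
    ring
  obtain ⟨B, C, h⟩ := multi_gen hι _ hγ n hn
    (fun _ => fun (e : Fin s → Fin (d + 1)) (t : ℝ) => ∏ i, f i t ^ (e i : ℕ)) (fun _ => a) (fun _ => b)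
    (fun _ => hab) (fun _ e t ht => Finset.analyticAt_fun_prod _ fun i _ => (han i t ht).pow _) (fun _ => hg)
    A β hA hβ'
  refine ⟨B, C, fun T hT => ?_⟩
  obtain ⟨hfin, hle⟩ := h T hT
  have hsub : {t : Fin n → ℚ | (∀ j, a ≤ t j ∧ t j ≤ b ∧ ((t j).den : ℝ) ≤ T) ∧
        ∃ P : MvPolynomial (Option (Fin n × Fin s)) ℤ, P ≠ 0 ∧ (∀ x, P.degreeOf x ≤ d) ∧
          (∀ u, |((P.coeff u : ℤ) : ℝ)| ≤ T ^ A) ∧
          |MvPolynomial.aeval (fun x : Option (Fin n × Fin s) =>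
            x.elim γ fun y => f y.2 (t y.1)) P| ≤ T ^ (-B)} ⊆
      ExcM (fun _ => fun (e : Fin s → Fin (d + 1)) (t : ℝ) => ∏ i, f i t ^ (e i : ℕ))
        (fun e : Fin (d + 1) => γ ^ (e : ℕ)) (fun _ : Fin n => a) (fun _ => b) A B T := by
    rintro t ⟨ht, P, hP0, hPd, hPc, hPs⟩
    refine ⟨fun j => ⟨⟨(ht j).1, (ht j).2.1⟩, (ht j).2.2⟩, fun e => P.coeff (sOf2 e),
      coeff_ne2 P hP0 hPd, fun e => hPc _, ?_⟩
    rw [aeval_eq2 _ P hPd] at hPs
    refine le_trans (le_of_eq ?_) hPs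
    congr 1
  refine ⟨hfin.subset hsub, le_trans ?_ hle⟩
  exact_mod_cast Set.ncard_le_ncard hsub hfin

end Pool.Agent.TH456.PW
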