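import Pool.Agent.TH818.AP.Mv2
import Pool.Agent.TH456.PW.Int

/-!
# Values of `x ^ x`, `γ ^ (γ t)` and `exp (exp t)` at rational points
-/

set_option autoImplicit false

open Filter Topology Asymptotics Set

namespace Pool.Agent.TH456.PW

open Pool.Agent.TH818.AP

theorem chain {s : ℕ} (L : Fin s → ℝ → ℝ)
    (h : ∀ (i : ℕ) (hi : i + 1 < s), (L ⟨i + 1, hi⟩) =o[atTop] (L ⟨i, by omega⟩)) :
    ∀ i j : Fin s, i < j → (L j) =o[atTop] (L i) := by
  have key : ∀ (k i : ℕ) (hi : i + k + 1 < s), (L ⟨i + k + 1, hi⟩) =o[atTop] (L ⟨i, by omega⟩) := by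
    intro k
    induction k with
    | zero => exact fun i hi => h i hi
    | succ k ih => exact fun i hi => (h (i + k + 1) hi).trans (ih i (by omega))
  rintro ⟨i, hi⟩ ⟨j, hj⟩ hij
  have hij' : i < j := hij
  obtain ⟨k, rfl⟩ : ∃ k, j = i + k + 1 := ⟨j - i - 1, by omega⟩
  exact key k i hj

theorem o_id : (fun t : ℝ => t) =o[atTop] (fun t : ℝ => t * Real.log t) := by
  refine isLittleO_of_tendsto' ?_ ?_
  · filter_upwards [eventually_gt_atTop 1] with t ht h0
    have h1 := Real.log_pos ht
    rcases mul_eq_zero.1 h0 with h | h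
    · linarith
    · linarith
  · have h1 : Tendsto (fun t : ℝ => (Real.log t)⁻¹) atTop (𝓝 0) := tendsto_inv_atTop_zero.comp Real.tendsto_log_atTop
    refine h1.congr' ?_
    filter_upwards [eventually_gt_atTop 1] with t ht
    have h1 := Real.log_pos ht
    have h2 : (0 : ℝ) < t := by linarith
    field_simp

theorem o_tlog : (fun t : ℝ => t * Real.log t) =o[atTop] Real.exp := by
  have h1 : (fun t : ℝ => t * Real.log t) =O[atTop] fun t : ℝ => t ^ 2 := by
    refine IsBigO.of_bound 1 ?_
    filter_upwards [eventually_gt_atTop 1] with t ht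
    have h2 := Real.log_pos ht
    have h3 : Real.log t ≤ t := (Real.log_le_sub_one_of_pos (by linarith)).trans (by linarith)
    rw [Real.norm_eq_abs, Real.norm_eq_abs, abs_of_nonneg (by positivity), abs_of_nonneg (by positivity), one_mul]
    nlinarith
  have h2 : (fun t : ℝ => t ^ 2) =o[atTop] Real.exp := by
    exact Real.isLittleO_pow_exp_atTop
  exact h1.trans_isLittleO h2

theorem tlog_top : Tendsto (fun t : ℝ => t * Real.log t) atTop atTop :=
  tendsto_id.atTop_mul_atTop₀ Real.tendsto_log_atTop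

/-- the scales `t log t ≫ t ≫ log t ≫ log log t` -/
noncomputable def L4 : Fin 4 → ℝ → ℝ :=
  ![fun t => t * Real.log t, fun t => t, Real.log, fun t => Real.log (Real.log t)]

/-- the scales `exp t ≫ t log t ≫ t ≫ log t ≫ log log t` -/
noncomputable def L5 : Fin 5 → ℝ → ℝ :=
  ![Real.exp, fun t => t * Real.log t, fun t => t, Real.log, fun t => Real.log (Real.log t)]

theorem L4_top (i : Fin 4) : Tendsto (L4 i) atTop atTop := by
  fin_cases i
  · exact tlog_top
  · exact tendsto_id
  · exact Real.tendsto_log_atTop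
  · exact loglog_top

theorem L5_top (i : Fin 5) : Tendsto (L5 i) atTop atTop := by
  fin_cases i
  · exact Real.tendsto_exp_atTop
  · exact tlog_top
  · exact tendsto_id
  · exact Real.tendsto_log_atTop
  · exact loglog_top

theorem L4_o : ∀ i j : Fin 4, i < j → (L4 j) =o[atTop] (L4 i) := by
  apply chain
  intro i hi
  have : i = 0 ∨ i = 1 ∨ i = 2 := by omega
  rcases this with rfl | rfl | rfl
  · exact o_id
  · exact Real.isLittleO_log_id_atTop
  · exact loglog_o

theorem L5_o : ∀ i j : Fin 5, i < j → (L5 j) =o[atTop] (L5 i) := by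
  apply chain
  intro i hi
  have : i = 0 ∨ i = 1 ∨ i = 2 ∨ i = 3 := by omega
  rcases this with rfl | rfl | rfl | rfl
  · exact o_tlog
  · exact o_id
  · exact Real.isLittleO_log_id_atTop
  · exact loglog_o

end Pool.Agent.TH456.PW
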