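import Pool.Agent.TH456.PW.Multi

/-!
# Approximate relations between the powers `x ^ (log b_i / log a)` for almost all integers `x`
-/

set_option autoImplicit false

namespace Pool.Agent.TH456.PW

open Pool.Agent.TH818.AP

/-- the exponents `∑ e_i θ_i` -/
noncomputable def φR {m d : ℕ} (θ : Fin m → ℝ) (e : Fin m → Fin (d + 1)) : ℝ :=
  ∑ i, ((e i : ℕ) : ℝ) * θ i

theorem φR_nonneg {m d : ℕ} (θ : Fin m → ℝ) (hθ : ∀ i, 0 ≤ θ i) (e : Fin m → Fin (d + 1)) : 0 ≤ φR θ e :=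
  Finset.sum_nonneg fun i _ => mul_nonneg (Nat.cast_nonneg _) (hθ i)

theorem rows {m : ℕ} (γ a : ℝ) (b : Fin m → ℝ) (hγ : ∀ d, GoodConst (fun e : Fin (d + 1) => γ ^ (e : ℕ)))
    (ha : 1 < a) (hb : ∀ i, 1 < b i)
    (hind : ∀ (n : ℤ) (k : Fin m → ℤ), a ^ n * ∏ i, b i ^ k i = 1 → k = 0)
    (d0 d1 d : ℕ) (A β : ℝ) (hA : 0 ≤ A)
    (hβ : 1 - 1 / (((d0 : ℝ) + 1) * (d1 + 1) * (d + 1) ^ m + 1) < β) :
    ∃ B0 C : ℝ, 0 ≤ C ∧ ∀ B : ℝ, B0 ≤ B → ∀ N : ℕ, 1 ≤ N →
      ((ExcM γ (φR (d := d) fun i => Real.log (b i) / Real.log a) d0 d1 N A B).ncard : ℝ) ≤ C * (N : ℝ) ^ β := by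
  have hla : 0 < Real.log a := Real.log_pos ha
  have hlb : ∀ i, 0 < Real.log (b i) := fun i => Real.log_pos (hb i)
  refine excM_bound γ _ hγ (φR_nonneg _ fun i => (div_pos (hlb i) hla).le) ?_ d0 d1 A β hA ?_
  · intro e e' j j' h
    have h1 : ∑ i, (((e i : ℕ) : ℝ) - ((e' i : ℕ) : ℝ)) * Real.log (b i) = (((j' : ℕ) : ℝ) - j) * Real.log a := by
      have h2 : ∀ f : Fin m → Fin (d + 1), (∑ i, ((f i : ℕ) : ℝ) * Real.log (b i)) =
          φR (fun i => Real.log (b i) / Real.log a) f * Real.log a := by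
        intro f
        unfold φR
        rw [Finset.sum_mul]
        refine Finset.sum_congr rfl fun i _ => ?_
        field_simp
      have h3 : φR (fun i => Real.log (b i) / Real.log a) e * Real.log a + j * Real.log a =
          φR (fun i => Real.log (b i) / Real.log a) e' * Real.log a + j' * Real.log a := by
        rw [← add_mul, ← add_mul, h]
      simp only [sub_mul, Finset.sum_sub_distrib]
      rw [h2 e, h2 e']
      linarith
    have h4 := hind ((j : ℤ) - j') (fun i => ((e i : ℕ) : ℤ) - ((e' i : ℕ) : ℤ)) (by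
      have hpos : 0 < a ^ ((j : ℤ) - j') * ∏ i, b i ^ (((e i : ℕ) : ℤ) - ((e' i : ℕ) : ℤ)) := by
        have ha0 : 0 < a := by linarith
        have hb0 : ∀ i, 0 < b i := fun i => by linarith [hb i]
        exact mul_pos (zpow_pos ha0 _) (Finset.prod_pos fun i _ => zpow_pos (hb0 i) _)
      apply Real.eq_one_of_pos_of_log_eq_zero hpos
      have ha0 : a ^ ((j : ℤ) - j') ≠ 0 := (zpow_pos (by linarith) _).ne'
      have hb0 : ∀ i ∈ Finset.univ, b i ^ (((e i : ℕ) : ℤ) - ((e' i : ℕ) : ℤ)) ≠ 0 :=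
        fun i _ => (zpow_pos (by linarith [hb i]) _).ne'
      rw [Real.log_mul ha0 (Finset.prod_ne_zero_iff.2 hb0), Real.log_prod hb0, Real.log_zpow]
      simp only [Real.log_zpow]
      push_cast
      rw [h1]
      ring)
    funext i
    have h5 := congrFun h4 i
    simp only [Pi.zero_apply] at h5
    exact Fin.ext (by omega)
  · refine lt_of_le_of_lt (le_of_eq ?_) hβ
    simp only [Fintype.card_pi, Fintype.card_fin, Finset.prod_const, Finset.card_univ]
    push_cast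
    rfl

theorem rpow_φR {m d : ℕ} (x : ℝ) (hx : 0 < x) (θ : Fin m → ℝ) (e : Fin m → Fin (d + 1)) :
    x ^ φR θ e = ∏ i, (x ^ θ i) ^ (e i : ℕ) := by
  unfold φR
  rw [Real.rpow_sum_of_pos hx]
  refine Finset.prod_congr rfl fun i _ => ?_
  rw [mul_comm, Real.rpow_mul hx.le, Real.rpow_natCast]

end Pool.Agent.TH456.PW
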